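import Mathlib
import Pool.Agent.Q11.SurjPoly

set_option autoImplicit false

namespace Pool.Agent.Results.MP_07d99b_al.SurjectiveN3

open MvPolynomial

/-- There is `n ≥ 1` and a surjective polynomial map `f = (p_0, …, p_{n-1}) : ℝ^n → ℝ^n` with
the five properties (a)-(e) of the problem (indices here start at `0`, so that (b) reads
`deg p_i ≤ i + 1`). -/
theorem result :
    ∃ (n : ℕ) (_ : 1 ≤ n) (p : Fin n → MvPolynomial (Fin n) ℝ),
      -- (a) `p_i(0, …, 0) = 0`
      (∀ i, eval (fun _ => (0 : ℝ)) (p i) = 0) ∧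
      -- (b) the degree condition
      (∀ i : Fin n, (p i).totalDegree ≤ (i : ℕ) + 1) ∧
      -- (c) the fibre over the origin is infinite
      {x : Fin n → ℝ | (fun i => eval x (p i)) = fun _ => (0 : ℝ)}.Infinite ∧
      -- (d) any `k` of the polynomials, `1 ≤ k < n`, involve at least `k + 1` indeterminates
      (∀ s : Finset (Fin n), 1 ≤ s.card → s.card < n →
        s.card + 1 ≤ (s.biUnion (fun i => (p i).vars)).card) ∧
      -- (e) every nonzero coefficient is `1` or `-1`
      (∀ (i : Fin n) (m : Fin n →₀ ℕ), coeff m (p i) ≠ 0 →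
        coeff m (p i) = 1 ∨ coeff m (p i) = -1) ∧
      -- the map is surjective
      Function.Surjective (fun (x : Fin n → ℝ) (i : Fin n) => eval x (p i)) := by
  open Q11.SurjPoly in
  exact ⟨3, by norm_num, q, q_zero, q_deg, q_fibre, q_inv, q_coeff, q_surj⟩

end Pool.Agent.Results.MP_07d99b_al.SurjectiveN3
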